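import Mathlib

/-!
Binary spaces with an infinite tail: the abstract part of the construction of a generalized matroidal
family of graphs which is closed under homeomorphism and has infinitely many homeomorphism classes.
-/

set_option autoImplicit false

open scoped symmDiff Classical

namespace Pool.Agent.Run7.h637.MF

universe u

variable {E : Type u}

/-- a family of finite sets which contains the empty set and is closed under symmetric difference -/
structure Bin (ev : Finset E → Prop) : Prop where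
  zero : ev ∅
  add : ∀ y z, ev y → ev z → ev (y ∆ z)

/-- number of the members of the family inside `F` -/
noncomputable def cnt (ev : Finset E → Prop) (F : Finset E) : ℕ := (F.powerset.filter ev).card

/-- `C` is the disjoint union of the finite set `F` and of sets `T n`, `n > N`, with `n` elements;
every finite even subset of `C` contains each of the `T n` or is disjoint from it; `F` is a union of
even sets and has exactly `2 ^ N` even subsets -/
structure Tail (ev : Finset E → Prop) (C : Set E) (N : ℕ) (F : Finset E) (T : ℕ → Finset E) :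
    Prop where
  cover : ∀ e, e ∈ C ↔ (e ∈ F ∨ ∃ n, N < n ∧ e ∈ T n)
  dF : ∀ n, N < n → Disjoint F (T n)
  dT : ∀ n m, N < n → N < m → n ≠ m → Disjoint (T n) (T m)
  card : ∀ n, N < n → (T n).card = n
  even : ∀ n, N < n → ev (T n)
  split : ∀ y : Finset E, ev y → (∀ e ∈ y, e ∈ C) → ∀ n, N < n → (Disjoint y (T n) ∨ T n ⊆ y)
  full : ∀ e ∈ F, ∃ y, y ⊆ F ∧ ev y ∧ e ∈ y
  count : cnt ev F = 2 ^ N

/-- sets with a tail -/
def Good (ev : Finset E → Prop) (C : Set E) : Prop :=
  ∃ (N : ℕ) (F : Finset E) (T : ℕ → Finset E), Tail ev C N F T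

variable {ev : Finset E → Prop} {C : Set E} {N : ℕ} {F : Finset E} {T : ℕ → Finset E}

theorem Tail.FC (h : Tail ev C N F T) {e : E} (he : e ∈ F) : e ∈ C := (h.cover e).2 (Or.inl he)

theorem Tail.TC (h : Tail ev C N F T) {n : ℕ} (hn : N < n) {e : E} (he : e ∈ T n) : e ∈ C :=
  (h.cover e).2 (Or.inr ⟨n, hn, he⟩)

theorem Tail.ne (h : Tail ev C N F T) {n : ℕ} (hn : N < n) : (T n).Nonempty := by
  rw [← Finset.card_pos, h.card n hn]; omega

theorem mem_evens {ev : Finset E → Prop} {F y : Finset E} :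
    y ∈ F.powerset.filter ev ↔ y ⊆ F ∧ ev y := by simp

theorem Tail.step (hb : Bin ev) (h : Tail ev C N F T) : Tail ev C (N + 1) (F ∪ T (N + 1)) T where
  cover e := by
    rw [h.cover e, Finset.mem_union]
    constructor
    · rintro (h1 | ⟨n, h1, h2⟩)
      · exact Or.inl (Or.inl h1)
      · by_cases h3 : n = N + 1
        · subst h3; exact Or.inl (Or.inr h2)
        · exact Or.inr ⟨n, by omega, h2⟩
    · rintro ((h1 | h1) | ⟨n, h1, h2⟩)
      · exact Or.inl h1
      · exact Or.inr ⟨N + 1, by omega, h1⟩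
      · exact Or.inr ⟨n, by omega, h2⟩
  dF n hn := by
    rw [Finset.disjoint_union_left]
    exact ⟨h.dF n (by omega), h.dT _ _ (by omega) (by omega) (by omega)⟩
  dT n m hn hm := h.dT n m (by omega) (by omega)
  card n hn := h.card n (by omega)
  even n hn := h.even n (by omega)
  split y hy hC n hn := h.split y hy hC n (by omega)
  full e he := by
    rcases Finset.mem_union.1 he with h1 | h1
    · obtain ⟨y, hy, h2, h3⟩ := h.full e h1
      exact ⟨y, hy.trans Finset.subset_union_left, h2, h3⟩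
    · exact ⟨T (N + 1), Finset.subset_union_right, h.even _ (by omega), h1⟩
  count := by
    have hN : N < N + 1 := by omega
    have hd := h.dF (N + 1) hN
    have key : (F ∪ T (N + 1)).powerset.filter ev =
        (F.powerset.filter ev) ∪ ((F.powerset.filter ev).image fun y => y ∆ T (N + 1)) := by
      ext y
      rw [Finset.mem_union, Finset.mem_image, mem_evens, mem_evens]
      constructor
      · rintro ⟨h1, h2⟩
        have hC : ∀ e ∈ y, e ∈ C := by
          intro e he
          rcases Finset.mem_union.1 (h1 he) with h3 | h3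
          · exact h.FC h3
          · exact h.TC hN h3
        rcases h.split y h2 hC (N + 1) hN with h3 | h3
        · left
          refine ⟨fun e he => ?_, h2⟩
          rcases Finset.mem_union.1 (h1 he) with h4 | h4
          · exact h4
          · exact absurd h4 (Finset.disjoint_left.1 h3 he)
        · right
          refine ⟨y ∆ T (N + 1), mem_evens.2 ⟨fun e he => ?_, hb.add _ _ h2 (h.even _ hN)⟩, ?_⟩
          · rcases Finset.mem_symmDiff.1 he with ⟨h4, h5⟩ | ⟨h4, h5⟩
            · rcases Finset.mem_union.1 (h1 h4) with h6 | h6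
              · exact h6
              · exact absurd h6 h5
            · exact absurd (h3 h4) h5
          · simp
      · rintro (⟨h1, h2⟩ | ⟨z, h1, h2⟩)
        · exact ⟨h1.trans Finset.subset_union_left, h2⟩
        · obtain ⟨h3, h4⟩ := mem_evens.1 h1
          subst h2
          refine ⟨fun e he => ?_, hb.add _ _ h4 (h.even _ hN)⟩
          rcases Finset.mem_symmDiff.1 he with ⟨h5, -⟩ | ⟨h5, -⟩
          · exact Finset.mem_union_left _ (h3 h5)
          · exact Finset.mem_union_right _ h5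
    have hdis : Disjoint (F.powerset.filter ev)
        ((F.powerset.filter ev).image fun y => y ∆ T (N + 1)) := by
      rw [Finset.disjoint_left]
      intro y h1 h2
      obtain ⟨z, h3, h4⟩ := Finset.mem_image.1 h2
      obtain ⟨h5, -⟩ := mem_evens.1 h3
      obtain ⟨h6, -⟩ := mem_evens.1 h1
      obtain ⟨t, ht⟩ := h.ne hN
      have h7 : t ∉ z := fun h8 => Finset.disjoint_left.1 hd (h5 h8) ht
      have h8 : t ∈ y := by
        rw [← h4]; exact Finset.mem_symmDiff.2 (Or.inr ⟨ht, h7⟩)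
      exact Finset.disjoint_left.1 hd (h6 h8) ht
    have hinj : Function.Injective fun y : Finset E => y ∆ T (N + 1) :=
      fun a b hab => by simpa using hab
    unfold cnt
    rw [key, Finset.card_union_of_disjoint hdis, Finset.card_image_of_injective _ hinj]
    have := h.count
    unfold cnt at this
    rw [this]; ring

theorem Tail.up (hb : Bin ev) (h : Tail ev C N F T) (k : ℕ) :
    ∃ F', F ⊆ F' ∧ Tail ev C (N + k) F' T := by
  induction k with
  | zero => exact ⟨F, subset_rfl, h⟩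
  | succ k ih =>
    obtain ⟨F', h1, h2⟩ := ih
    exact ⟨_, h1.trans Finset.subset_union_left, h2.step hb⟩

theorem Tail.upTo (hb : Bin ev) (h : Tail ev C N F T) {M : ℕ} (hM : N ≤ M) :
    ∃ F', F ⊆ F' ∧ Tail ev C M F' T := by
  obtain ⟨k, rfl⟩ := Nat.exists_eq_add_of_le hM
  exact h.up hb k

/-- a finite set meets only finitely many of the sets of the tail -/
theorem Tail.bound (h : Tail ev C N F T) (S : Finset E) :
    ∃ M, ∀ n, N < n → M < n → Disjoint S (T n) := by
  induction S using Finset.induction_on with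
  | empty => exact ⟨0, fun n _ _ => Finset.disjoint_empty_left _⟩
  | insert a S _ ih =>
    obtain ⟨M, hM⟩ := ih
    by_cases ha : ∃ m, N < m ∧ a ∈ T m
    · obtain ⟨m, hm, ham⟩ := ha
      refine ⟨max M m, fun n hn hn' => ?_⟩
      rw [Finset.disjoint_insert_left]
      refine ⟨fun h1 => ?_, hM n hn (by omega)⟩
      exact Finset.disjoint_left.1 (h.dT m n hm hn (by omega)) ham h1
    · refine ⟨M, fun n hn hn' => ?_⟩
      rw [Finset.disjoint_insert_left]
      exact ⟨fun h1 => ha ⟨n, hn, h1⟩, hM n hn hn'⟩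

/-- enlarge the finite part so that it contains the part in `C` of a given finite set -/
theorem Tail.absorb (hb : Bin ev) (h : Tail ev C N F T) (S : Finset E) (K : ℕ) :
    ∃ M F', N ≤ M ∧ K ≤ M ∧ Tail ev C M F' T ∧ (∀ e ∈ S, e ∈ C → e ∈ F') ∧
      ∀ n, M < n → Disjoint S (T n) := by
  obtain ⟨M, hM⟩ := h.bound S
  obtain ⟨F', -, h2⟩ := h.upTo hb (M := max N (max M K)) (le_max_left _ _)
  have hdis : ∀ n, max N (max M K) < n → Disjoint S (T n) :=
    fun n hn => hM n (by omega) (by omega)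
  refine ⟨_, F', le_max_left _ _, by omega, h2, fun e he hC => ?_, hdis⟩
  rcases (h2.cover e).1 hC with h3 | ⟨n, hn, h3⟩
  · exact h3
  · exact absurd h3 (Finset.disjoint_left.1 (hdis n hn) he)

/-- every element lies in a finite even subset -/
theorem Tail.exEven (h : Tail ev C N F T) {e : E} (he : e ∈ C) :
    ∃ y : Finset E, ev y ∧ (∀ x ∈ y, x ∈ C) ∧ e ∈ y := by
  rcases (h.cover e).1 he with h1 | ⟨n, hn, h1⟩
  · obtain ⟨y, h2, h3, h4⟩ := h.full e h1
    exact ⟨y, h3, fun x hx => h.FC (h2 hx), h4⟩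
  · exact ⟨T n, h.even n hn, fun x hx => h.TC hn hx, h1⟩

/-- (C1) -/
theorem good_antichain (hb : Bin ev) {C₁ C₂ : Set E} (h₁ : Good ev C₁) (h₂ : Good ev C₂)
    (hsub : C₂ ⊆ C₁) : C₂ = C₁ := by
  obtain ⟨N₁, F₁, T₁, t₁⟩ := h₁
  obtain ⟨N₂, F₂, T₂, t₂⟩ := h₂
  obtain ⟨G₁, -, s₁⟩ := t₁.upTo hb (M := max N₁ N₂) (le_max_left _ _)
  obtain ⟨G₂, -, s₂⟩ := t₂.upTo hb (M := max N₁ N₂) (le_max_right _ _)
  set N := max N₁ N₂
  -- the tails agree eventually
  have hT : ∀ n, N < n → G₁.card < n → T₂ n = T₁ n := by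
    intro n hn hn'
    by_cases hex : ∃ m, N < m ∧ T₁ m ⊆ T₂ n
    · obtain ⟨m, hm, hmn⟩ := hex
      have h3 : ∀ e ∈ T₁ m, e ∈ C₂ := fun e he => s₂.TC hn (hmn he)
      rcases s₂.split (T₁ m) (s₁.even m hm) h3 n hn with h4 | h4
      · obtain ⟨t, ht⟩ := s₁.ne hm
        exact absurd (hmn ht) (Finset.disjoint_left.1 h4 ht)
      · have h5 : T₂ n = T₁ m := h4.antisymm hmn
        have h6 : n = m := by rw [← s₂.card n hn, h5, s₁.card m hm]
        rw [h5, h6]
    · exfalso
      have h3 : T₂ n ⊆ G₁ := by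
        intro e he
        rcases (s₁.cover e).1 (hsub (s₂.TC hn he)) with h4 | ⟨m, hm, h4⟩
        · exact h4
        · exfalso
          rcases s₁.split (T₂ n) (s₂.even n hn) (fun x hx => hsub (s₂.TC hn hx)) m hm with h5 | h5
          · exact Finset.disjoint_left.1 h5 he h4
          · exact hex ⟨m, hm, h5⟩
      have h4 := Finset.card_le_card h3
      rw [s₂.card n hn] at h4
      omega
  obtain ⟨K₁, -, r₁⟩ := s₁.upTo hb (M := max N G₁.card) (le_max_left _ _)
  obtain ⟨K₂, -, r₂⟩ := s₂.upTo hb (M := max N G₁.card) (le_max_left _ _)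
  have hT' : ∀ n, max N G₁.card < n → T₂ n = T₁ n := fun n hn => hT n (by omega) (by omega)
  have hK : K₂ ⊆ K₁ := by
    intro e he
    rcases (r₁.cover e).1 (hsub (r₂.FC he)) with h4 | ⟨n, hn, h4⟩
    · exact h4
    · rw [← hT' n hn] at h4
      exact absurd h4 (Finset.disjoint_left.1 (r₂.dF n hn) he)
  have hA : K₂.powerset.filter ev = K₁.powerset.filter ev := by
    apply Finset.eq_of_subset_of_card_le
    · intro y hy
      rw [mem_evens] at hy ⊢
      exact ⟨hy.1.trans hK, hy.2⟩
    · have h5 := r₁.count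
      have h6 := r₂.count
      unfold cnt at h5 h6
      rw [h5, h6]
  have hK' : K₁ ⊆ K₂ := by
    intro e he
    obtain ⟨y, h4, h5, h6⟩ := r₁.full e he
    have h7 : y ∈ K₁.powerset.filter ev := mem_evens.2 ⟨h4, h5⟩
    rw [← hA] at h7
    exact (mem_evens.1 h7).1 h6
  refine Set.Subset.antisymm hsub fun e he => ?_
  rcases (r₁.cover e).1 he with h4 | ⟨n, hn, h4⟩
  · exact r₂.FC (hK' h4)
  · rw [← hT' n hn] at h4
    exact r₂.TC hn h4

/-- adding finitely many elements to `C`: the splitting property survives far out -/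
theorem Tail.extend (hb : Bin ev) (h : Tail ev C N F T) (D : Finset E) :
    ∃ M, N ≤ M ∧ ∀ y : Finset E, ev y → (∀ e ∈ y, e ∈ C ∨ e ∈ D) → ∀ n, M < n →
      (Disjoint y (T n) ∨ T n ⊆ y) := by
  have key : ∀ s : Finset E, ∃ M, N ≤ M ∧ ∀ y : Finset E, ev y → (∀ e ∈ y, e ∈ C ∨ e ∈ D) →
      (y.filter fun e => e ∉ C) = s → ∀ n, M < n → (Disjoint y (T n) ∨ T n ⊆ y) := by
    intro s
    by_cases hex : ∃ y : Finset E, ev y ∧ (y.filter fun e => e ∉ C) = s
    · obtain ⟨y₀, h1, h2⟩ := hex
      obtain ⟨M, hM⟩ := h.bound y₀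
      refine ⟨max N M, le_max_left _ _, fun y hy _ hs n hn => ?_⟩
      have hd := hM n (by omega) (by omega)
      have h3 : ∀ e ∈ y ∆ y₀, e ∈ C := by
        intro e he
        by_contra hC
        have h4 : e ∈ y ↔ e ∈ y₀ := by
          have h5 : e ∈ (y.filter fun e => e ∉ C) ↔ e ∈ (y₀.filter fun e => e ∉ C) := by
            rw [hs, h2]
          simpa [hC] using h5
        rcases Finset.mem_symmDiff.1 he with ⟨h5, h6⟩ | ⟨h5, h6⟩
        · exact h6 (h4.1 h5)
        · exact h6 (h4.2 h5)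
      rcases h.split _ (hb.add _ _ hy h1) h3 n (by omega) with h4 | h4
      · left
        rw [Finset.disjoint_left] at h4 hd ⊢
        intro e he ht
        by_cases h5 : e ∈ y₀
        · exact hd h5 ht
        · exact h4 (Finset.mem_symmDiff.2 (Or.inl ⟨he, h5⟩)) ht
      · right
        intro e he
        have h5 : e ∉ y₀ := fun h6 => Finset.disjoint_left.1 hd h6 he
        rcases Finset.mem_symmDiff.1 (h4 he) with ⟨h6, -⟩ | ⟨h6, -⟩
        · exact h6
        · exact absurd h6 h5
    · exact ⟨N, le_rfl, fun y hy _ hs => absurd ⟨y, hy, hs⟩ hex⟩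
  choose f hf1 hf2 using key
  refine ⟨max N (D.powerset.sup f), le_max_left _ _, fun y hy hyD n hn => ?_⟩
  have hs : (y.filter fun e => e ∉ C) ∈ D.powerset := by
    rw [Finset.mem_powerset]
    intro e he
    rw [Finset.mem_filter] at he
    exact (hyD e he.1).resolve_left he.2
  have h1 : f (y.filter fun e => e ∉ C) ≤ D.powerset.sup f := Finset.le_sup hs
  exact hf2 _ y hy hyD rfl n (by omega)

theorem cnt_mono {G H : Finset E} (h : G ⊆ H) : cnt ev G ≤ cnt ev H := by
  apply Finset.card_le_card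
  intro y hy
  rw [mem_evens] at hy ⊢
  exact ⟨hy.1.trans h, hy.2⟩

theorem cnt_erase (hb : Bin ev) {G : Finset E} {g : E} {y₀ : Finset E} (hy₀ : ev y₀)
    (hyG : y₀ ⊆ G) (hg : g ∈ y₀) : cnt ev G = 2 * cnt ev (G.erase g) := by
  have key : G.powerset.filter ev =
      ((G.erase g).powerset.filter ev) ∪ (((G.erase g).powerset.filter ev).image fun y => y ∆ y₀) := by
    ext y
    rw [Finset.mem_union, Finset.mem_image, mem_evens, mem_evens]
    constructor
    · rintro ⟨h1, h2⟩
      by_cases h3 : g ∈ y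
      · right
        refine ⟨y ∆ y₀, mem_evens.2 ⟨fun e he => ?_, hb.add _ _ h2 hy₀⟩, by simp⟩
        rw [Finset.mem_erase]
        refine ⟨?_, ?_⟩
        · rintro rfl
          rcases Finset.mem_symmDiff.1 he with ⟨-, h5⟩ | ⟨-, h5⟩
          · exact h5 hg
          · exact h5 h3
        · rcases Finset.mem_symmDiff.1 he with ⟨h5, -⟩ | ⟨h5, -⟩
          · exact h1 h5
          · exact hyG h5
      · left
        exact ⟨fun e he => Finset.mem_erase.2 ⟨fun h4 => h3 (h4 ▸ he), h1 he⟩, h2⟩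
    · rintro (⟨h1, h2⟩ | ⟨z, h1, h2⟩)
      · exact ⟨h1.trans (Finset.erase_subset _ _), h2⟩
      · obtain ⟨h3, h4⟩ := mem_evens.1 h1
        subst h2
        refine ⟨fun e he => ?_, hb.add _ _ h4 hy₀⟩
        rcases Finset.mem_symmDiff.1 he with ⟨h5, -⟩ | ⟨h5, -⟩
        · exact Finset.mem_of_mem_erase (h3 h5)
        · exact hyG h5
  have hdis : Disjoint ((G.erase g).powerset.filter ev)
      (((G.erase g).powerset.filter ev).image fun y => y ∆ y₀) := by
    rw [Finset.disjoint_left]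
    intro y h1 h2
    obtain ⟨z, h3, h4⟩ := Finset.mem_image.1 h2
    obtain ⟨h5, -⟩ := mem_evens.1 h3
    obtain ⟨h6, -⟩ := mem_evens.1 h1
    have h7 : g ∉ z := fun h8 => Finset.notMem_erase g G (h5 h8)
    have h8 : g ∈ y := by
      rw [← h4]; exact Finset.mem_symmDiff.2 (Or.inr ⟨hg, h7⟩)
    exact Finset.notMem_erase g G (h6 h8)
  have hinj : Function.Injective fun y : Finset E => y ∆ y₀ :=
    fun a b hab => by simpa using hab
  unfold cnt
  rw [key, Finset.card_union_of_disjoint hdis, Finset.card_image_of_injective _ hinj]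
  ring

theorem cnt_erase_eq {G : Finset E} {g : E} (h : ∀ y, y ⊆ G → ev y → g ∉ y) :
    cnt ev (G.erase g) = cnt ev G := by
  unfold cnt
  congr 1
  ext y
  rw [mem_evens, mem_evens]
  constructor
  · rintro ⟨h1, h2⟩
    exact ⟨h1.trans (Finset.erase_subset _ _), h2⟩
  · rintro ⟨h1, h2⟩
    exact ⟨fun e he => Finset.mem_erase.2 ⟨fun h4 => h y h1 h2 (h4 ▸ he), h1 he⟩, h2⟩

/-- the number of the even subsets is a power of two -/
theorem cnt_pow (hb : Bin ev) (G : Finset E) : ∃ k, cnt ev G = 2 ^ k := by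
  induction h : G.card generalizing G with
  | zero =>
    rw [Finset.card_eq_zero] at h
    subst h
    refine ⟨0, ?_⟩
    unfold cnt
    rw [Finset.powerset_empty, Finset.filter_singleton, if_pos hb.zero]
    simp
  | succ n ih =>
    obtain ⟨g, hg⟩ : G.Nonempty := by rw [← Finset.card_pos]; omega
    obtain ⟨k, hk⟩ := ih (G.erase g) (by rw [Finset.card_erase_of_mem hg, h]; rfl)
    by_cases hex : ∃ y, y ⊆ G ∧ ev y ∧ g ∈ y
    · obtain ⟨y, h1, h2, h3⟩ := hex
      exact ⟨k + 1, by rw [cnt_erase hb h2 h1 h3, hk]; ring⟩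
    · push Not at hex
      exact ⟨k, by rw [← cnt_erase_eq hex, hk]⟩

/-- a subset with a prescribed number of even subsets -/
theorem exists_sub (hb : Bin ev) (G : Finset E) (M : ℕ) (h : 2 ^ M ≤ cnt ev G) :
    ∃ K, K ⊆ G ∧ cnt ev K = 2 ^ M ∧ ∀ e ∈ K, ∃ y, y ⊆ K ∧ ev y ∧ e ∈ y := by
  induction hn : G.card using Nat.strong_induction_on generalizing G with
  | _ n ih =>
    subst hn
    by_cases hex : ∃ g ∈ G, 2 ^ M ≤ cnt ev (G.erase g)
    · obtain ⟨g, hg, h1⟩ := hex
      obtain ⟨K, h2, h3, h4⟩ := ih _ (Finset.card_erase_lt_of_mem hg) _ h1 rfl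
      exact ⟨K, h2.trans (Finset.erase_subset _ _), h3, h4⟩
    · push Not at hex
      have hfull : ∀ e ∈ G, ∃ y, y ⊆ G ∧ ev y ∧ e ∈ y := by
        intro e he
        by_contra hne
        push Not at hne
        have := hex e he
        rw [cnt_erase_eq hne] at this
        omega
      refine ⟨G, subset_rfl, ?_, hfull⟩
      rcases G.eq_empty_or_nonempty with h0 | ⟨g, hg⟩
      · subst h0
        have h1 : cnt ev (∅ : Finset E) = 1 := by
          unfold cnt
          rw [Finset.powerset_empty, Finset.filter_singleton, if_pos hb.zero]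
          simp
        rw [h1] at h ⊢
        have : 2 ^ M = 1 := le_antisymm h Nat.one_le_two_pow
        rw [this]
      · obtain ⟨y, h1, h2, h3⟩ := hfull g hg
        have h4 := cnt_erase hb h2 h1 h3
        have h5 := hex g hg
        obtain ⟨k, hk⟩ := cnt_pow hb (G.erase g)
        rw [hk] at h4 h5
        have h6 : k < M := (Nat.pow_lt_pow_iff_right (by norm_num)).1 h5
        have h7 : cnt ev G = 2 ^ (k + 1) := by rw [h4]; ring
        have h8 : cnt ev G ≤ 2 ^ M := by
          rw [h7]; exact Nat.pow_le_pow_right (by norm_num) h6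
        exact le_antisymm h8 h

/-- (C2) -/
theorem good_elim (hb : Bin ev) {C₁ C₂ : Set E} (h₁ : Good ev C₁) (h₂ : Good ev C₂)
    (hne : C₁ ≠ C₂) {e : E} (he₁ : e ∈ C₁) (he₂ : e ∈ C₂) :
    ∃ C : Set E, Good ev C ∧ C ⊆ (C₁ ∪ C₂) \ {e} := by
  have hns : ¬ C₂ ⊆ C₁ := fun h => hne (good_antichain hb h₁ h₂ h).symm
  obtain ⟨f, hf₂, hf₁⟩ := Set.not_subset.1 hns
  obtain ⟨N, F, T, t⟩ := h₁
  obtain ⟨N₂, F₂, T₂, t₂⟩ := h₂
  -- an even set `z` in the union which avoids `e` and contains `f`
  obtain ⟨z, hz, hzC, hze, hzf⟩ : ∃ z : Finset E, ev z ∧ (∀ x ∈ z, x ∈ C₁ ∨ x ∈ C₂) ∧ e ∉ z ∧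
      f ∈ z := by
    obtain ⟨y₂, a1, a2, a3⟩ := t₂.exEven hf₂
    by_cases hey : e ∈ y₂
    · obtain ⟨y₁, b1, b2, b3⟩ := t.exEven he₁
      refine ⟨y₂ ∆ y₁, hb.add _ _ a1 b1, fun x hx => ?_, fun h => ?_, ?_⟩
      · rcases Finset.mem_symmDiff.1 hx with ⟨h5, -⟩ | ⟨h5, -⟩
        · exact Or.inr (a2 x h5)
        · exact Or.inl (b2 x h5)
      · rcases Finset.mem_symmDiff.1 h with ⟨-, h5⟩ | ⟨-, h5⟩
        · exact h5 b3
        · exact h5 hey
      · exact Finset.mem_symmDiff.2 (Or.inl ⟨a3, fun h => hf₁ (b2 f h)⟩)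
    · exact ⟨y₂, a1, fun x hx => Or.inr (a2 x hx), hey, a3⟩
  obtain ⟨K, -, hK⟩ := t.extend hb z
  obtain ⟨M, G, -, hKM, s, hSG, hdis⟩ := t.absorb hb (insert e z) K
  have heG : e ∈ G := hSG e (Finset.mem_insert_self _ _) he₁
  have hzT : ∀ n, M < n → Disjoint z (T n) := fun n hn =>
    Finset.disjoint_of_subset_left (Finset.subset_insert _ _) (hdis n hn)
  have hfG : f ∉ G := fun h => hf₁ (s.FC h)
  -- the count
  have hcnt : 2 ^ M ≤ cnt ev (G.erase e ∪ z) := by
    obtain ⟨y, h1, h2, h3⟩ := s.full e heG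
    have h4 := cnt_erase hb h2 h1 h3
    rw [s.count] at h4
    have h5 : f ∈ (G.erase e ∪ z) := Finset.mem_union_right _ hzf
    have h6 := cnt_erase hb hz (Finset.subset_union_right (s₁ := G.erase e)) hzf
    rw [h6, h4]
    apply Nat.mul_le_mul_left
    apply cnt_mono
    intro x hx
    rw [Finset.mem_erase]
    refine ⟨?_, Finset.mem_union_left _ hx⟩
    rintro rfl
    exact hfG (Finset.mem_of_mem_erase hx)
  obtain ⟨L, hL1, hL2, hL3⟩ := exists_sub hb _ M hcnt
  have hLC : ∀ x ∈ L, (x ∈ C₁ ∨ x ∈ z) ∧ x ≠ e := by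
    intro x hx
    rcases Finset.mem_union.1 (hL1 hx) with h1 | h1
    · exact ⟨Or.inl (s.FC (Finset.mem_of_mem_erase h1)), Finset.ne_of_mem_erase h1⟩
    · exact ⟨Or.inr h1, fun h2 => hze (h2 ▸ h1)⟩
  refine ⟨{x | x ∈ L ∨ ∃ n, M < n ∧ x ∈ T n}, ⟨M, L, T, ?_⟩, ?_⟩
  · refine ⟨fun x => Iff.rfl, fun n hn => ?_, s.dT, s.card, s.even, fun y hy hC n hn => ?_, hL3,
      hL2⟩
    · apply Finset.disjoint_of_subset_left hL1
      rw [Finset.disjoint_union_left]
      exact ⟨Finset.disjoint_of_subset_left (Finset.erase_subset _ _) (s.dF n hn), hzT n hn⟩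
    · apply hK y hy (fun x hx => ?_) n (by omega)
      rcases hC x hx with h1 | ⟨m, hm, h1⟩
      · exact (hLC x h1).1
      · exact Or.inl (s.TC hm h1)
  · rintro x (h1 | ⟨n, hn, h1⟩)
    · refine ⟨?_, (hLC x h1).2⟩
      rcases (hLC x h1).1 with h2 | h2
      · exact Or.inl h2
      · exact hzC x h2
    · refine ⟨Or.inl (s.TC hn h1), ?_⟩
      rintro rfl
      exact Finset.disjoint_left.1 (s.dF n hn) heG h1

end Pool.Agent.Run7.h637.MF
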