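import Mathlib

/-!
Graphs with loops and multiple edges, possibly infinite; subdivision, homeomorphism, generalized
matroidal families.
-/

set_option autoImplicit false

namespace Pool.Agent.Run7.h637.MF

universe u

/-- A graph: a set of vertices, a set of edges, and for every edge its unordered pair of ends
(equal ends: a loop). Both sets may be infinite, edges may be parallel, the graph need not be
connected. -/
structure MG where
  /-- vertices -/
  V : Type u
  /-- edges -/
  E : Type u
  /-- the ends of an edge -/
  ends : E → Sym2 V

/-- isomorphic graphs -/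
def MG.Iso (G H : MG.{u}) : Prop :=
  ∃ (a : G.V ≃ H.V) (b : G.E ≃ H.E), ∀ e, H.ends (b e) = (G.ends e).map a

/-- `C` is the edge set of a subgraph of `G` isomorphic to `X` -/
def MG.IsCopy (X G : MG.{u}) (C : Set G.E) : Prop :=
  ∃ (a : X.V → G.V) (b : X.E → G.E), Function.Injective a ∧ Function.Injective b ∧
    (∀ e, G.ends (b e) = (X.ends e).map a) ∧ C = Set.range b

open Classical in
/-- Replace the edge `e` with ends `u, v` by a path `u, w, v`: the new vertex `w` is `none`, the edge
`u w` is called `some e` and the edge `w v` is called `none`. -/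
noncomputable abbrev MG.subdivide (G : MG.{u}) (e : G.E) (u v : G.V) : MG.{u} where
  V := Option G.V
  E := Option G.E
  ends := fun x => match x with
    | none => s(none, some v)
    | some x => if x = e then s(some u, none) else (G.ends x).map some

/-- `H` arises from `G` by the subdivision of one edge -/
def MG.Subdivision (G H : MG.{u}) : Prop :=
  ∃ (e : G.E) (u v : G.V), G.ends e = s(u, v) ∧ (G.subdivide e u v).Iso H

/-- `H` arises from `G` by a finite (possibly empty) sequence of subdivisions (up to isomorphism) -/
def MG.Arises (G H : MG.{u}) : Prop :=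
  Relation.ReflTransGen (fun A B : MG.{u} => A.Iso B ∨ A.Subdivision B) G H

/-- homeomorphic: both arise from a common graph -/
def MG.Homeo (G H : MG.{u}) : Prop := ∃ Z : MG.{u}, Z.Arises G ∧ Z.Arises H

/-- the circuits of the matroid that the family `P` is to define on the edges of `G` -/
def circuits (P : Set MG.{u}) (G : MG.{u}) : Set (Set G.E) := {C | ∃ X ∈ P, X.IsCopy G C}

/-- `P` is a generalized matroidal family: `P` is non-empty and for every graph the circuits satisfy
(C1) and (C2) -/
def GenMatroidal (P : Set MG.{u}) : Prop :=
  P.Nonempty ∧ ∀ G : MG.{u},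
    (∀ C ∈ circuits P G, ∀ C' ∈ circuits P G, ¬ C ⊂ C') ∧
    (∀ C ∈ circuits P G, ∀ C' ∈ circuits P G, C ≠ C' → ∀ e, e ∈ C → e ∈ C' →
      ∃ C'' ∈ circuits P G, C'' ⊆ (C ∪ C') \ {e})

/-- closed under homeomorphism -/
def HomeoClosed (P : Set MG.{u}) : Prop := ∀ G ∈ P, ∀ H : MG.{u}, G.Homeo H → H ∈ P

/-- the homeomorphism classes of `P`: the classes of the equivalence relation generated by
homeomorphism on the members of `P` -/
def HomeoClasses (P : Set MG.{u}) : Type (u + 1) := Quot fun X Y : P => X.1.Homeo Y.1

end Pool.Agent.Run7.h637.MF
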