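import Pool.Agent.Run7.h637.MF.Graph

/-!
Degrees are invariant under homeomorphism; the members `X k` of the family.
-/

set_option autoImplicit false

open scoped symmDiff Classical

namespace Pool.Agent.Run7.h637.MF

universe u v

/-- the vertex `v` has degree `d` -/
def HasDeg (G : MG.{u}) (v : G.V) (d : ℕ) : Prop :=
  ∃ S : Finset G.E, (∀ e, e ∉ S → inc v (G.ends e) = 0) ∧ ∑ e ∈ S, inc v (G.ends e) = d

/-- the degrees other than two -/
def degs (G : MG.{u}) : Set ℕ := {d | d ≠ 2 ∧ ∃ v, HasDeg G v d}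

theorem HasDeg.up {G : MG.{u}} {v : G.V} {d : ℕ} (h : HasDeg G v d) (R : Finset G.E) :
    ∃ S : Finset G.E, R ⊆ S ∧ (∀ e, e ∉ S → inc v (G.ends e) = 0) ∧
      ∑ e ∈ S, inc v (G.ends e) = d := by
  obtain ⟨S, h1, h2⟩ := h
  refine ⟨S ∪ R, Finset.subset_union_right, fun e he => h1 e fun h3 =>
    he (Finset.mem_union_left _ h3), ?_⟩
  rw [← h2]
  symm
  apply Finset.sum_subset Finset.subset_union_left
  intro x _ hx
  exact h1 x hx

theorem degs_iso {G H : MG.{u}} (h : G.Iso H) : degs G = degs H := by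
  obtain ⟨a, b, hab⟩ := h
  ext d
  unfold degs
  refine and_congr Iff.rfl ⟨?_, ?_⟩
  · rintro ⟨v, S, h1, h2⟩
    refine ⟨a v, S.map b.toEmbedding, fun e he => ?_, ?_⟩
    · have h3 := hab (b.symm e)
      rw [Equiv.apply_symm_apply] at h3
      rw [h3, inc_map a a.injective]
      apply h1
      intro h4
      apply he
      have := Finset.mem_map_of_mem b.toEmbedding h4
      simpa using this
    · rw [Finset.sum_map, ← h2]
      refine Finset.sum_congr rfl fun e _ => ?_
      have : H.ends (b.toEmbedding e) = (G.ends e).map a := hab e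
      rw [this, inc_map a a.injective]
  · rintro ⟨w, S, h1, h2⟩
    refine ⟨a.symm w, S.map b.symm.toEmbedding, fun e he => ?_, ?_⟩
    · rw [← inc_map a a.injective, ← hab, Equiv.apply_symm_apply]
      apply h1
      intro h4
      apply he
      have := Finset.mem_map_of_mem b.symm.toEmbedding h4
      simpa using this
    · rw [Finset.sum_map, ← h2]
      refine Finset.sum_congr rfl fun e _ => ?_
      have h3 := hab (b.symm e)
      rw [Equiv.apply_symm_apply] at h3
      have h4 : inc (a.symm w) (G.ends (b.symm.toEmbedding e)) =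
          inc (a (a.symm w)) ((G.ends (b.symm e)).map a) := (inc_map a a.injective _ _).symm
      rw [h4, ← h3, Equiv.apply_symm_apply]

theorem degs_sub {G : MG.{u}} {e : G.E} {p q : G.V} (hpq : G.ends e = s(p, q)) :
    degs G = degs (G.subdivide e p q) := by
  ext d
  unfold degs
  constructor
  · rintro ⟨hd, v, h⟩
    refine ⟨hd, ?_⟩
    obtain ⟨S, h1, h2, h3⟩ := h.up {e}
    have he : e ∈ S := h1 (Finset.mem_singleton_self _)
    refine ⟨some v, Finset.insertNone S, fun x hx => ?_, ?_⟩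
    · rcases x with _ | x
      · exact absurd (by simp) hx
      · have hx' : x ∉ S := by simpa using hx
        have hxe : x ≠ e := fun h => hx' (h ▸ he)
        have h4 : (G.subdivide e p q).ends (some x) = (G.ends x).map some := by
          simp [MG.subdivide, hxe]
        rw [h4, inc_map some (Option.some_injective _)]
        exact h2 x hx'
    · rw [sum_some hpq v _ (by simp [he]), Finset.eraseNone_insertNone, h3]
  · rintro ⟨hd, w, h⟩
    refine ⟨hd, ?_⟩
    obtain ⟨S, h1, h2, h3⟩ := h.up ({none, some e} : Finset (Option G.E))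
    have hn : (none : Option G.E) ∈ S := h1 (by simp)
    have he : (some e : Option G.E) ∈ S := h1 (by simp)
    rcases w with _ | t
    · rw [sum_none, if_pos hn, if_pos he] at h3
      exact absurd h3.symm hd
    · refine ⟨t, Finset.eraseNone S, fun x hx => ?_, ?_⟩
      · have hx' : some x ∉ S := fun h4 => hx (Finset.mem_eraseNone.2 h4)
        have hxe : x ≠ e := fun h4 => hx' (h4 ▸ he)
        have h5 := h2 (some x) hx'
        have h4 : (G.subdivide e p q).ends (some x) = (G.ends x).map some := by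
          simp [MG.subdivide, hxe]
        rw [h4, inc_map some (Option.some_injective _)] at h5
        exact h5
      · rw [sum_some hpq t _ (by simp [hn, he])] at h3
        exact h3

theorem degs_step {A B : MG.{u}} (h : A.Iso B ∨ A.Subdivision B) : degs A = degs B := by
  rcases h with h | ⟨e, p, q, hpq, h⟩
  · exact degs_iso h
  · exact (degs_sub hpq).trans (degs_iso h)

theorem degs_arises {A B : MG.{u}} (h : A.Arises B) : degs A = degs B := by
  induction h with
  | refl => rfl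
  | tail _ h2 ih => exact ih.trans (degs_step h2)

theorem degs_homeo {A B : MG.{u}} (h : A.Homeo B) : degs A = degs B := by
  obtain ⟨Z, h1, h2⟩ := h
  exact (degs_arises h1).symm.trans (degs_arises h2)

/-! ### The examples -/

/-- the edges other than the loops: circuits of lengths `k + 1, k + 2, ...` -/
abbrev Cyc (k : ℕ) : Type := Σ m : ℕ, Fin (k + m + 1)

/-- the next vertex on the circuit -/
def nxt {k : ℕ} (x : Cyc k) : Cyc k := ⟨x.1, x.2 + 1⟩

/-- `k` loops at one vertex and disjoint circuits of lengths `k + 1, k + 2, ...` -/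
abbrev X (k : ℕ) : MG.{u} where
  V := ULift.{u} (Unit ⊕ Cyc k)
  E := ULift.{u} (Fin k ⊕ Cyc k)
  ends := fun e => match e.down with
    | Sum.inl _ => s(⟨Sum.inl ()⟩, ⟨Sum.inl ()⟩)
    | Sum.inr x => s(⟨Sum.inr x⟩, ⟨Sum.inr (nxt x)⟩)

/-- the edge after the vertex `x` of a circuit -/
def ed {k : ℕ} (x : Cyc k) : (X.{u} k).E := ⟨Sum.inr x⟩

theorem nxt_eq {k : ℕ} (x : Cyc k) (m : ℕ) (t : Fin (k + m + 1)) :
    nxt x = ⟨m, t⟩ ↔ x = ⟨m, t - 1⟩ := by
  obtain ⟨n, i⟩ := x
  unfold nxt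
  constructor
  · intro h
    have h1 : n = m := congrArg Sigma.fst h
    subst h1
    have h2 : i + 1 = t := by simpa using h
    rw [← h2]; simp
  · intro h
    have h1 : n = m := congrArg Sigma.fst h
    subst h1
    have h2 : i = t - 1 := by simpa using h
    rw [h2]; simp

theorem inc_cyc {k : ℕ} (m : ℕ) (t : Fin (k + m + 1)) (e : (X.{u} k).E) :
    inc (V := (X.{u} k).V) ⟨Sum.inr ⟨m, t⟩⟩ ((X.{u} k).ends e) =
      (if e = ed ⟨m, t⟩ then 1 else 0) + (if e = ed ⟨m, t - 1⟩ then 1 else 0) := by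
  rcases e with ⟨e | x⟩
  · have h1 : (X.{u} k).ends ⟨Sum.inl e⟩ = s(⟨Sum.inl ()⟩, ⟨Sum.inl ()⟩) := rfl
    rw [h1, inc_mk]
    have h2 : ∀ y : Cyc k, (⟨Sum.inl e⟩ : (X.{u} k).E) ≠ ed y := by
      intro y h
      have := congrArg ULift.down h
      exact absurd this (by simp [ed])
    rw [if_neg (h2 _), if_neg (h2 _)]
    simp
  · have h1 : (X.{u} k).ends ⟨Sum.inr x⟩ = s(⟨Sum.inr x⟩, ⟨Sum.inr (nxt x)⟩) := rfl
    rw [h1, inc_mk]
    have h2 : ∀ y : Cyc k, ((⟨Sum.inr x⟩ : (X.{u} k).E) = ed y) ↔ x = y := by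
      intro y
      unfold ed
      constructor
      · intro h
        have := congrArg ULift.down h
        simpa using this
      · rintro rfl; rfl
    have h3 : ∀ y : Cyc k, ((⟨Sum.inr x⟩ : (X.{u} k).V) = ⟨Sum.inr y⟩) ↔ x = y := by
      intro y
      constructor
      · intro h
        have := congrArg ULift.down h
        simpa using this
      · rintro rfl; rfl
    have h4 : ((⟨Sum.inr (nxt x)⟩ : (X.{u} k).V) = ⟨Sum.inr ⟨m, t⟩⟩) ↔ x = ⟨m, t - 1⟩ := by
      rw [← nxt_eq]
      constructor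
      · intro h
        have := congrArg ULift.down h
        simpa using this
      · intro h; rw [h]
    simp only [h2, h3, h4]

theorem inc_ctr_loop {k : ℕ} (j : Fin k) :
    inc (V := (X.{u} k).V) ⟨Sum.inl ()⟩ ((X.{u} k).ends ⟨Sum.inl j⟩) = 2 := by
  have h1 : (X.{u} k).ends ⟨Sum.inl j⟩ = s(⟨Sum.inl ()⟩, ⟨Sum.inl ()⟩) := rfl
  rw [h1, inc_mk]; simp

theorem inc_ctr_cyc {k : ℕ} (x : Cyc k) :
    inc (V := (X.{u} k).V) ⟨Sum.inl ()⟩ ((X.{u} k).ends ⟨Sum.inr x⟩) = 0 := by
  have h1 : (X.{u} k).ends ⟨Sum.inr x⟩ = s(⟨Sum.inr x⟩, ⟨Sum.inr (nxt x)⟩) := rfl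
  rw [h1, inc_mk]
  rw [if_neg, if_neg]
  · intro h
    have := congrArg ULift.down h
    exact absurd this (by simp)
  · intro h
    have := congrArg ULift.down h
    exact absurd this (by simp)

theorem ev_X {k : ℕ} (y : Finset (X.{u} k).E) :
    ev (X.{u} k) y ↔ ∀ (m : ℕ) (t : Fin (k + m + 1)), ed.{u} ⟨m, t⟩ ∈ y ↔ ed.{u} ⟨m, t - 1⟩ ∈ y := by
  have key : ∀ (m : ℕ) (t : Fin (k + m + 1)),
      ∑ e ∈ y, inc (V := (X.{u} k).V) ⟨Sum.inr ⟨m, t⟩⟩ ((X.{u} k).ends e) =
        (if ed.{u} ⟨m, t⟩ ∈ y then 1 else 0) + (if ed.{u} ⟨m, t - 1⟩ ∈ y then 1 else 0) := by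
    intro m t
    rw [Finset.sum_congr rfl fun e _ => inc_cyc m t e, Finset.sum_add_distrib,
      Finset.sum_ite_eq', Finset.sum_ite_eq']
  constructor
  · intro h m t
    have h1 := h ⟨Sum.inr ⟨m, t⟩⟩
    rw [key] at h1
    by_cases h3 : ed.{u} ⟨m, t⟩ ∈ y <;> by_cases h4 : ed.{u} ⟨m, t - 1⟩ ∈ y <;>
      simp [h3, h4] at h1 ⊢
  · intro h v
    rcases v with ⟨⟨⟩ | ⟨m, t⟩⟩
    · apply Finset.sum_induction _ Even (fun a b ha hb => ha.add hb) (by simp)
      intro e _
      rcases e with ⟨j | x⟩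
      · rw [inc_ctr_loop]; decide
      · rw [inc_ctr_cyc]; decide
    · rw [key]
      by_cases h3 : ed.{u} ⟨m, t⟩ ∈ y
      · rw [if_pos h3, if_pos ((h m t).1 h3)]; decide
      · rw [if_neg h3, if_neg fun h4 => h3 ((h m t).2 h4)]; decide

/-- the embedding of the circuit of length `k + m + 1` -/
def cyEmb (k m : ℕ) : Fin (k + m + 1) ↪ (X.{u} k).E where
  toFun i := ed ⟨m, i⟩
  inj' := by
    intro i j h
    have := congrArg ULift.down h
    simpa [ed] using this

/-- the embedding of the loops -/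
def lpEmb (k : ℕ) : Fin k ↪ (X.{u} k).E where
  toFun i := ⟨Sum.inl i⟩
  inj' := by
    intro i j h
    have := congrArg ULift.down h
    simpa using this

theorem good_X (k : ℕ) : Good (ev (X.{u} k)) Set.univ := by
  have hmemT : ∀ (m : ℕ) (e : (X.{u} k).E), e ∈ (Finset.univ.map (cyEmb.{u} k m)) ↔
      ∃ i, e = ed ⟨m, i⟩ := by
    intro m e
    rw [Finset.mem_map]
    constructor
    · rintro ⟨i, -, rfl⟩; exact ⟨i, rfl⟩
    · rintro ⟨i, rfl⟩; exact ⟨i, Finset.mem_univ _, rfl⟩
  have hmemF : ∀ (e : (X.{u} k).E), e ∈ (Finset.univ.map (lpEmb.{u} k)) ↔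
      ∃ i : Fin k, e = ⟨Sum.inl i⟩ := by
    intro e
    rw [Finset.mem_map]
    constructor
    · rintro ⟨i, -, rfl⟩; exact ⟨i, rfl⟩
    · rintro ⟨i, rfl⟩; exact ⟨i, Finset.mem_univ _, rfl⟩
  have hed : ∀ (x y : Cyc k), (ed.{u} x = ed.{u} y) ↔ x = y := by
    intro x y
    constructor
    · intro h
      have := congrArg ULift.down h
      simpa [ed] using this
    · rintro rfl; rfl
  have hne : ∀ (i : Fin k) (x : Cyc k), (⟨Sum.inl i⟩ : (X.{u} k).E) ≠ ed.{u} x := by
    intro i x h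
    have := congrArg ULift.down h
    exact absurd this (by simp [ed])
  have hevF : ∀ y : Finset (X.{u} k).E, y ⊆ Finset.univ.map (lpEmb.{u} k) → ev (X.{u} k) y := by
    intro y hy
    rw [ev_X]
    intro m t
    constructor
    · intro h
      obtain ⟨i, hi⟩ := (hmemF _).1 (hy h)
      exact absurd hi.symm (hne i _)
    · intro h
      obtain ⟨i, hi⟩ := (hmemF _).1 (hy h)
      exact absurd hi.symm (hne i _)
  refine ⟨k, Finset.univ.map (lpEmb.{u} k), fun n => Finset.univ.map (cyEmb.{u} k (n - k - 1)),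
    fun e => ⟨fun _ => ?_, fun _ => Set.mem_univ _⟩, fun n hn => ?_,
      fun n m hn hm hnm => ?_, fun n hn => ?_,
      fun n hn => ?_, fun y hy hC n hn => ?_, fun e he => ?_, ?_⟩
  · rcases e with ⟨j | ⟨m, i⟩⟩
    · left; rw [hmemF]; exact ⟨j, rfl⟩
    · right
      refine ⟨k + m + 1, by omega, ?_⟩
      have h1 : k + m + 1 - k - 1 = m := by omega
      rw [h1, hmemT]
      exact ⟨i, rfl⟩
  · rw [Finset.disjoint_left]
    intro e h1 h2
    obtain ⟨i, rfl⟩ := (hmemF _).1 h1
    obtain ⟨j, hj⟩ := (hmemT _ _).1 h2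
    exact hne _ _ hj
  · rw [Finset.disjoint_left]
    intro e h1 h2
    obtain ⟨i, rfl⟩ := (hmemT _ _).1 h1
    obtain ⟨j, hj⟩ := (hmemT _ _).1 h2
    rw [hed] at hj
    have := congrArg Sigma.fst hj
    simp only at this
    omega
  · rw [Finset.card_map, Finset.card_univ, Fintype.card_fin]; omega
  · rw [ev_X]
    intro m t
    rw [hmemT, hmemT]
    constructor
    · rintro ⟨i, hi⟩
      rw [hed] at hi
      have h1 : m = n - k - 1 := congrArg Sigma.fst hi
      subst h1
      exact ⟨t - 1, rfl⟩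
    · rintro ⟨i, hi⟩
      rw [hed] at hi
      have h1 : m = n - k - 1 := congrArg Sigma.fst hi
      subst h1
      exact ⟨t, rfl⟩
  · rw [ev_X] at hy
    by_cases hex : ∃ i : Fin (k + (n - k - 1) + 1), ed.{u} ⟨n - k - 1, i⟩ ∈ y
    · right
      obtain ⟨i, hi⟩ := hex
      have hstep : ∀ j : Fin (k + (n - k - 1) + 1), ed.{u} ⟨n - k - 1, j⟩ ∈ y ↔
          ed.{u} ⟨n - k - 1, 0⟩ ∈ y := by
        intro j
        induction j using Fin.induction with
        | zero => exact Iff.rfl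
        | succ j ih =>
          rw [← ih, hy (n - k - 1) j.succ]
          have h2 : j.succ - 1 = j.castSucc := by
            rw [sub_eq_iff_eq_add]; exact (Fin.coeSucc_eq_succ).symm
          rw [h2]
      intro e he
      obtain ⟨l, rfl⟩ := (hmemT _ _).1 he
      exact (hstep l).2 ((hstep i).1 hi)
    · left
      rw [Finset.disjoint_left]
      intro e h1 h2
      obtain ⟨j, rfl⟩ := (hmemT _ _).1 h2
      exact hex ⟨j, h1⟩
  · exact ⟨{e}, Finset.singleton_subset_iff.2 he, hevF _ (Finset.singleton_subset_iff.2 he),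
      Finset.mem_singleton_self _⟩
  · unfold cnt
    have h1 : (Finset.univ.map (lpEmb.{u} k)).powerset.filter (ev (X.{u} k)) =
        (Finset.univ.map (lpEmb.{u} k)).powerset := by
      apply Finset.filter_true_of_mem
      intro y hy
      exact hevF y (Finset.mem_powerset.1 hy)
    rw [h1, Finset.card_powerset, Finset.card_map, Finset.card_univ, Fintype.card_fin]

theorem X_mem (k : ℕ) (hk : 0 < k) : X.{u} k ∈ fam.{u} := by
  refine ⟨fun v => ?_, good_X k⟩
  rcases v with ⟨⟨⟩ | x⟩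
  · exact ⟨⟨Sum.inl ⟨0, hk⟩⟩, Sym2.mem_mk_left _ _⟩
  · exact ⟨⟨Sum.inr x⟩, Sym2.mem_mk_left _ _⟩

theorem degs_X (k : ℕ) (hk : 2 ≤ k) : degs (X.{u} k) = {2 * k} := by
  ext d
  rw [Set.mem_singleton_iff]
  constructor
  · rintro ⟨hd, v, S, h1, h2⟩
    rcases v with ⟨⟨⟩ | ⟨m, t⟩⟩
    · have h3 : Finset.univ.map (lpEmb.{u} k) ⊆ S := by
        intro e he
        obtain ⟨i, -, rfl⟩ := Finset.mem_map.1 he
        by_contra h4
        have h5 := h1 _ h4
        have h6 := inc_ctr_loop.{u} i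
        have h7 : (lpEmb.{u} k) i = ⟨Sum.inl i⟩ := rfl
        rw [h7, h6] at h5
        omega
      have h4 := Finset.sum_subset (f := fun e => inc (V := (X.{u} k).V) ⟨Sum.inl ()⟩
        ((X.{u} k).ends e)) h3 (by
          intro e _ he
          rcases e with ⟨j | x⟩
          · exact absurd (Finset.mem_map.2 ⟨j, Finset.mem_univ _, rfl⟩) he
          · exact inc_ctr_cyc x)
      rw [← h2, ← h4, Finset.sum_map]
      have h5 : ∀ i : Fin k, inc (V := (X.{u} k).V) ⟨Sum.inl ()⟩
          ((X.{u} k).ends ((lpEmb.{u} k) i)) = 2 := fun i => inc_ctr_loop i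
      simp only [h5]
      simp; ring
    · exfalso
      apply hd
      rw [← h2]
      rw [Finset.sum_congr rfl fun e _ => inc_cyc m t e, Finset.sum_add_distrib,
        Finset.sum_ite_eq', Finset.sum_ite_eq']
      have h3 : ∀ e, inc (V := (X.{u} k).V) ⟨Sum.inr ⟨m, t⟩⟩ ((X.{u} k).ends e) ≠ 0 → e ∈ S :=
        fun e he => by_contra fun h4 => he (h1 e h4)
      have h4 : ed.{u} ⟨m, t⟩ ∈ S := h3 _ (by rw [inc_cyc]; simp)
      have h5 : ed.{u} ⟨m, t - 1⟩ ∈ S := h3 _ (by rw [inc_cyc]; simp)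
      rw [if_pos h4, if_pos h5]
  · rintro rfl
    refine ⟨by omega, ⟨Sum.inl ()⟩, Finset.univ.map (lpEmb.{u} k), fun e he => ?_, ?_⟩
    · rcases e with ⟨j | x⟩
      · exact absurd (Finset.mem_map.2 ⟨j, Finset.mem_univ _, rfl⟩) he
      · exact inc_ctr_cyc x
    · rw [Finset.sum_map]
      have h5 : ∀ i : Fin k, inc (V := (X.{u} k).V) ⟨Sum.inl ()⟩
          ((X.{u} k).ends ((lpEmb.{u} k) i)) = 2 := fun i => inc_ctr_loop i
      simp only [h5]
      simp; ring

theorem infinite_classes : Infinite (HomeoClasses fam.{u}) := by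
  let f : HomeoClasses fam.{u} → Set ℕ :=
    Quot.lift (fun Y => degs Y.1) fun A B h => degs_homeo h
  let g : ℕ → HomeoClasses fam.{u} := fun n => Quot.mk _ ⟨X.{u} (n + 2), X_mem _ (by omega)⟩
  apply Infinite.of_injective g
  intro m n h
  have h1 : f (g m) = f (g n) := by rw [h]
  have h2 : ∀ n, f (g n) = {2 * (n + 2)} := fun n => degs_X (n + 2) (by omega)
  rw [h2, h2, Set.singleton_eq_singleton_iff] at h1
  omega

end Pool.Agent.Run7.h637.MF
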