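import Pool.Agent.Run7.h637.MF.Core
import Pool.Agent.Run7.h637.MF.Defs

/-!
The family: graphs without isolated vertices whose finite even sets of edges form a binary space with
an infinite tail. It is a generalized matroidal family, closed under homeomorphism.
-/

set_option autoImplicit false

open scoped symmDiff Classical

namespace Pool.Agent.Run7.h637.MF

universe u v

/-- how many times `v` is an end -/
noncomputable def inc {V : Type u} (v : V) (s : Sym2 V) : ℕ :=
  Sym2.lift ⟨fun a b => (if a = v then 1 else 0) + (if b = v then 1 else 0),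
    fun a b => add_comm _ _⟩ s

theorem inc_mk {V : Type u} (v a b : V) :
    inc v s(a, b) = (if a = v then 1 else 0) + (if b = v then 1 else 0) := rfl

theorem inc_map {V : Type u} {W : Type v} (a : V → W) (ha : Function.Injective a) (v : V)
    (s : Sym2 V) : inc (a v) (s.map a) = inc v s := by
  induction s using Sym2.ind with
  | _ x y => simp [Sym2.map_mk, inc_mk, ha.eq_iff]

theorem inc_map_of_not {V : Type u} {W : Type v} (a : V → W) (w : W) (hw : ∀ v, a v ≠ w)
    (s : Sym2 V) : inc w (s.map a) = 0 := by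
  induction s using Sym2.ind with
  | _ x y => simp [Sym2.map_mk, inc_mk, hw]

theorem inc_pos {V : Type u} {v : V} {s : Sym2 V} (h : inc v s ≠ 0) : v ∈ s := by
  induction s using Sym2.ind with
  | _ x y =>
    rw [inc_mk] at h
    rw [Sym2.mem_iff]
    by_contra h1
    push Not at h1
    apply h
    rw [if_neg (Ne.symm h1.1), if_neg (Ne.symm h1.2)]

theorem inc_ne {V : Type u} {v : V} {s : Sym2 V} (h : v ∈ s) : inc v s ≠ 0 := by
  induction s using Sym2.ind with
  | _ x y =>
    rw [inc_mk]
    rw [Sym2.mem_iff] at h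
    rcases h with h | h
    · rw [if_pos h.symm]; omega
    · rw [if_pos h.symm]; omega

/-- even sets of edges -/
def ev (G : MG.{u}) (y : Finset G.E) : Prop := ∀ v, Even (∑ e ∈ y, inc v (G.ends e))

theorem ev_bin (G : MG.{u}) : Bin (ev G) where
  zero v := by simp
  add y z hy hz v := by
    have h1 := Finset.sum_inter_add_sum_sdiff y z fun e => inc v (G.ends e)
    have h2 := Finset.sum_inter_add_sum_sdiff z y fun e => inc v (G.ends e)
    have h3 : ∑ e ∈ y ∆ z, inc v (G.ends e) =
        ∑ e ∈ y \ z, inc v (G.ends e) + ∑ e ∈ z \ y, inc v (G.ends e) := by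
      rw [← Finset.sum_union (disjoint_sdiff_sdiff)]
      rfl
    rw [Finset.inter_comm z y] at h2
    have h4 := hy v
    have h5 := hz v
    rw [← h1] at h4
    rw [← h2] at h5
    rw [h3]
    rw [Nat.even_iff] at h4 h5 ⊢
    omega

/-- the family -/
def fam : Set MG.{u} := {X | (∀ v, ∃ e, v ∈ X.ends e) ∧ Good (ev X) Set.univ}

section transport

variable {E : Type u} {E' : Type v} (b : E ↪ E') {ev : Finset E → Prop} {ev' : Finset E' → Prop}

theorem exists_map (y : Finset E') (hy : ∀ x ∈ y, x ∈ Set.range b) : ∃ z : Finset E, z.map b = y := by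
  refine ⟨y.preimage b b.injective.injOn, ?_⟩
  ext x
  rw [Finset.mem_map]
  constructor
  · rintro ⟨a, h1, rfl⟩
    exact Finset.mem_preimage.1 h1
  · intro h
    obtain ⟨a, rfl⟩ := hy x h
    exact ⟨a, Finset.mem_preimage.2 h, rfl⟩

theorem cnt_map (h : ∀ y : Finset E, ev' (y.map b) ↔ ev y) (F : Finset E) :
    cnt ev' (F.map b) = cnt ev F := by
  unfold cnt
  rw [← Finset.card_map (Finset.mapEmbedding b).toEmbedding]
  congr 1
  ext y
  rw [mem_evens, Finset.mem_map]
  constructor
  · rintro ⟨h1, h2⟩
    obtain ⟨z, rfl⟩ := exists_map b y fun x hx => by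
      obtain ⟨a, -, rfl⟩ := Finset.mem_map.1 (h1 hx)
      exact ⟨a, rfl⟩
    exact ⟨z, mem_evens.2 ⟨Finset.map_subset_map.1 h1, (h z).1 h2⟩, rfl⟩
  · rintro ⟨z, h1, rfl⟩
    obtain ⟨h2, h3⟩ := mem_evens.1 h1
    exact ⟨Finset.map_subset_map.2 h2, (h z).2 h3⟩

theorem tail_map (h : ∀ y : Finset E, ev' (y.map b) ↔ ev y) {N : ℕ} {F : Finset E}
    {T : ℕ → Finset E} {F' : Finset E'} {T' : ℕ → Finset E'} (hF : F.map b = F')
    (hT : ∀ n, N < n → (T n).map b = T' n) :
    Tail ev Set.univ N F T ↔ Tail ev' (Set.range b) N F' T' := by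
  subst hF
  constructor
  · intro t
    refine ⟨fun e => ⟨?_, ?_⟩, fun n hn => ?_, fun n m hn hm hnm => ?_, fun n hn => ?_,
      fun n hn => ?_, fun y hy hC n hn => ?_, fun e he => ?_, ?_⟩
    · rintro ⟨a, rfl⟩
      rcases (t.cover a).1 (Set.mem_univ _) with h1 | ⟨n, hn, h1⟩
      · exact Or.inl (Finset.mem_map_of_mem _ h1)
      · exact Or.inr ⟨n, hn, by rw [← hT n hn]; exact Finset.mem_map_of_mem _ h1⟩
    · rintro (h1 | ⟨n, hn, h1⟩)
      · obtain ⟨a, -, rfl⟩ := Finset.mem_map.1 h1
        exact ⟨a, rfl⟩
      · rw [← hT n hn] at h1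
        obtain ⟨a, -, rfl⟩ := Finset.mem_map.1 h1
        exact ⟨a, rfl⟩
    · rw [← hT n hn, Finset.disjoint_map]; exact t.dF n hn
    · rw [← hT n hn, ← hT m hm, Finset.disjoint_map]; exact t.dT n m hn hm hnm
    · rw [← hT n hn, Finset.card_map]; exact t.card n hn
    · rw [← hT n hn, h]; exact t.even n hn
    · obtain ⟨z, rfl⟩ := exists_map b y hC
      rw [← hT n hn, Finset.disjoint_map, Finset.map_subset_map]
      exact t.split z ((h z).1 hy) (fun _ _ => Set.mem_univ _) n hn
    · obtain ⟨a, ha, rfl⟩ := Finset.mem_map.1 he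
      obtain ⟨y, h1, h2, h3⟩ := t.full a ha
      exact ⟨y.map b, Finset.map_subset_map.2 h1, (h y).2 h2, Finset.mem_map_of_mem _ h3⟩
    · rw [cnt_map b h]; exact t.count
  · intro t
    refine ⟨fun e => ⟨fun _ => ?_, fun _ => Set.mem_univ _⟩, fun n hn => ?_,
      fun n m hn hm hnm => ?_, fun n hn => ?_,
      fun n hn => ?_, fun y hy hC n hn => ?_, fun e he => ?_, ?_⟩
    · rcases (t.cover (b e)).1 ⟨e, rfl⟩ with h1 | ⟨n, hn, h1⟩
      · exact Or.inl ((Finset.mem_map' b).1 h1)
      · rw [← hT n hn] at h1
        exact Or.inr ⟨n, hn, (Finset.mem_map' b).1 h1⟩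
    · have := t.dF n hn
      rwa [← hT n hn, Finset.disjoint_map] at this
    · have := t.dT n m hn hm hnm
      rwa [← hT n hn, ← hT m hm, Finset.disjoint_map] at this
    · have := t.card n hn
      rwa [← hT n hn, Finset.card_map] at this
    · have := t.even n hn
      rwa [← hT n hn, h] at this
    · have := t.split (y.map b) ((h y).2 hy) (fun x hx => by
        obtain ⟨a, -, rfl⟩ := Finset.mem_map.1 hx
        exact ⟨a, rfl⟩) n hn
      rwa [← hT n hn, Finset.disjoint_map, Finset.map_subset_map] at this
    · obtain ⟨y, h1, h2, h3⟩ := t.full (b e) (Finset.mem_map_of_mem _ he)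
      obtain ⟨z, rfl⟩ := exists_map b y fun x hx => by
        obtain ⟨a, -, rfl⟩ := Finset.mem_map.1 (h1 hx)
        exact ⟨a, rfl⟩
      exact ⟨z, Finset.map_subset_map.1 h1, (h z).1 h2, (Finset.mem_map' b).1 h3⟩
    · rw [← cnt_map b h]; exact t.count

theorem good_map (h : ∀ y : Finset E, ev' (y.map b) ↔ ev y) :
    Good ev Set.univ ↔ Good ev' (Set.range b) := by
  constructor
  · rintro ⟨N, F, T, t⟩
    exact ⟨N, F.map b, fun n => (T n).map b, (tail_map b h rfl fun _ _ => rfl).1 t⟩
  · rintro ⟨N, F, T, t⟩
    obtain ⟨F₀, hF⟩ := exists_map b F fun x hx => t.FC hx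
    have hT : ∀ n, ∃ z : Finset E, N < n → z.map b = T n := by
      intro n
      by_cases hn : N < n
      · obtain ⟨z, hz⟩ := exists_map b (T n) fun x hx => t.TC hn hx
        exact ⟨z, fun _ => hz⟩
      · exact ⟨∅, fun h => absurd h hn⟩
    choose T₀ hT₀ using hT
    exact ⟨N, F₀, T₀, (tail_map b h hF hT₀).2 t⟩

end transport

/-- even sets of a subgraph -/
theorem ev_map {X G : MG.{u}} (a : X.V → G.V) (b : X.E ↪ G.E) (ha : Function.Injective a)
    (h : ∀ e, G.ends (b e) = (X.ends e).map a) (y : Finset X.E) : ev G (y.map b) ↔ ev X y := by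
  unfold ev
  constructor
  · intro h1 v
    have := h1 (a v)
    rw [Finset.sum_map] at this
    simpa only [h, inc_map a ha] using this
  · intro h1 w
    rw [Finset.sum_map]
    by_cases hw : ∃ v, a v = w
    · obtain ⟨v, rfl⟩ := hw
      simpa only [h, inc_map a ha] using h1 v
    · push Not at hw
      simp only [h, inc_map_of_not a w hw]
      simp

theorem circuits_fam (G : MG.{u}) : circuits fam G = {C | Good (ev G) C} := by
  ext C
  constructor
  · rintro ⟨X, ⟨-, hX⟩, a, b, ha, hb, hab, rfl⟩
    exact (good_map ⟨b, hb⟩ (ev_map a ⟨b, hb⟩ ha hab)).1 hX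
  · intro hC
    have hends : ∀ e : C, ∀ v ∈ G.ends e, ∃ e : C, v ∈ G.ends e := fun e v hv => ⟨e, hv⟩
    let X : MG.{u} :=
      { V := {v : G.V // ∃ e : C, v ∈ G.ends e}
        E := C
        ends := fun e => (G.ends e).attachWith (hends e) }
    have hX : ∀ e : X.E, G.ends (Subtype.val e) = (X.ends e).map (Subtype.val : X.V → G.V) := by
      intro e
      exact (Sym2.attachWith_map_subtypeVal (hends e)).symm
    have hg := (good_map (ev := ev X) (ev' := ev G) (Function.Embedding.subtype fun x => x ∈ C)
      (ev_map (X := X) (G := G) (Subtype.val : X.V → G.V) (Function.Embedding.subtype fun x => x ∈ C)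
        Subtype.val_injective hX)).2 (by
        have : Set.range (Function.Embedding.subtype fun x => x ∈ C) = C := by
          ext x; simp
        rw [this]; exact hC)
    refine ⟨X, ⟨?_, hg⟩, Subtype.val, Subtype.val, Subtype.val_injective, Subtype.val_injective,
      hX, ?_⟩
    · rintro ⟨v, e, he⟩
      refine ⟨e, ?_⟩
      have h1 := hX e
      have h2 : v ∈ (X.ends e).map (Subtype.val : X.V → G.V) := by rw [← h1]; exact he
      rw [Sym2.mem_map] at h2
      obtain ⟨w, hw, hwv⟩ := h2
      have : w = ⟨v, e, he⟩ := Subtype.ext hwv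
      rw [← this]; exact hw
    · ext x; simp [X]

/-- (C1) and (C2) for the family -/
theorem fam_axioms (G : MG.{u}) :
    (∀ C ∈ circuits fam G, ∀ C' ∈ circuits fam G, ¬ C ⊂ C') ∧
    (∀ C ∈ circuits fam G, ∀ C' ∈ circuits fam G, C ≠ C' → ∀ e, e ∈ C → e ∈ C' →
      ∃ C'' ∈ circuits fam G, C'' ⊆ (C ∪ C') \ {e}) := by
  rw [circuits_fam]
  refine ⟨fun C hC C' hC' h => ?_, fun C hC C' hC' hne e he he' => ?_⟩
  · have := good_antichain (ev_bin G) hC' hC h.subset
    exact h.ne this
  · exact good_elim (ev_bin G) hC hC' hne he he'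

/-! ### Isomorphisms and subdivisions -/

theorem fam_iso {G H : MG.{u}} (h : G.Iso H) : G ∈ fam ↔ H ∈ fam := by
  obtain ⟨a, b, hab⟩ := h
  have h1 := good_map (ev := ev G) (ev' := ev H) b.toEmbedding
    (ev_map (X := G) (G := H) a b.toEmbedding a.injective hab)
  have h2 : Set.range b.toEmbedding = Set.univ := by
    ext x; simp
  rw [h2] at h1
  unfold fam
  refine and_congr ⟨fun h3 v => ?_, fun h3 v => ?_⟩ h1
  · obtain ⟨e, he⟩ := h3 (a.symm v)
    refine ⟨b e, ?_⟩
    rw [hab, Sym2.mem_map]
    exact ⟨_, he, by simp⟩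
  · obtain ⟨e, he⟩ := h3 (a v)
    refine ⟨b.symm e, ?_⟩
    have h4 := hab (b.symm e)
    rw [Equiv.apply_symm_apply] at h4
    rw [h4, Sym2.mem_map] at he
    obtain ⟨w, hw, hwv⟩ := he
    rwa [← a.injective hwv]

section sub

variable {G : MG.{u}} {e : G.E} {p q : G.V} (hpq : G.ends e = s(p, q))

theorem sum_option {V : Type u} (f : Option V → ℕ) (y : Finset (Option V)) :
    ∑ x ∈ y, f x = (if none ∈ y then f none else 0) + ∑ x ∈ Finset.eraseNone y, f (some x) := by
  have h1 : ∑ x ∈ Finset.eraseNone y, f (some x) = ∑ x ∈ y.erase none, f x := by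
    rw [← Finset.map_some_eraseNone, Finset.sum_map]
    rfl
  rw [h1]
  split_ifs with h
  · rw [Finset.add_sum_erase _ _ h]
  · rw [Finset.erase_eq_of_notMem h, zero_add]

include hpq in
theorem sum_some (t : G.V) (y : Finset (Option G.E)) (hy : some e ∈ y ↔ none ∈ y) :
    ∑ x ∈ y, inc (some t) ((G.subdivide e p q).ends x) =
      ∑ x ∈ Finset.eraseNone y, inc t (G.ends x) := by
  rw [sum_option]
  have h0 : ∀ x : G.E, x ≠ e → inc (some t) ((G.subdivide e p q).ends (some x)) =
      inc t (G.ends x) := by
    intro x hx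
    have : (G.subdivide e p q).ends (some x) = (G.ends x).map some := by
      simp [MG.subdivide, hx]
    rw [this]
    exact inc_map some (Option.some_injective _) t _
  have h1 : inc (some t) ((G.subdivide e p q).ends (some e)) = if p = t then 1 else 0 := by
    have : (G.subdivide e p q).ends (some e) = s(some p, none) := by simp [MG.subdivide]
    rw [this]
    show inc (some t) s(some p, none) = _
    rw [inc_mk]; simp
  have h2 : inc (some t) ((G.subdivide e p q).ends none) = if q = t then 1 else 0 := by
    have : (G.subdivide e p q).ends none = s(none, some q) := rfl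
    rw [this]
    show inc (some t) s(none, some q) = _
    rw [inc_mk]; simp
  by_cases hn : none ∈ y
  · have he : e ∈ Finset.eraseNone y := Finset.mem_eraseNone.2 (hy.2 hn)
    rw [if_pos hn, h2, ← Finset.add_sum_erase _ _ he, ← Finset.add_sum_erase _ _ he, h1, hpq,
      inc_mk, Finset.sum_congr rfl fun x hx => h0 x (Finset.ne_of_mem_erase hx)]
    ring
  · have he : e ∉ Finset.eraseNone y := fun h => hn (hy.1 (Finset.mem_eraseNone.1 h))
    rw [if_neg hn, zero_add]
    refine Finset.sum_congr rfl fun x hx => h0 x ?_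
    rintro rfl
    exact he hx

theorem sum_none (y : Finset (Option G.E)) :
    ∑ x ∈ y, inc none ((G.subdivide e p q).ends x) =
      (if none ∈ y then 1 else 0) + (if some e ∈ y then 1 else 0) := by
  rw [sum_option]
  congr 1
  · have : inc none ((G.subdivide e p q).ends none) = 1 := by
      have : (G.subdivide e p q).ends none = s(none, some q) := rfl
      rw [this]
      show inc none s(none, some q) = _
      rw [inc_mk]; simp
    rw [this]
  · have h1 : ∀ x : G.E, inc none ((G.subdivide e p q).ends (some x)) = if x = e then 1 else 0 := by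
      intro x
      by_cases hx : x = e
      · subst hx
        have : (G.subdivide x p q).ends (some x) = s(some p, none) := by simp [MG.subdivide]
        rw [this, if_pos rfl]
        show inc none s(some p, none) = _
        rw [inc_mk]; simp
      · have : (G.subdivide e p q).ends (some x) = (G.ends x).map some := by
          simp [MG.subdivide, hx]
        rw [this, if_neg hx]
        exact inc_map_of_not some none (fun v => by simp) _
    simp only [h1]
    rw [Finset.sum_ite_eq']
    simp only [Finset.mem_eraseNone]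

include hpq in
theorem ev_sub (y : Finset (Option G.E)) :
    ev (G.subdivide e p q) y ↔ ((some e ∈ y ↔ none ∈ y) ∧ ev G (Finset.eraseNone y)) := by
  constructor
  · intro h
    have h1 : some e ∈ y ↔ none ∈ y := by
      have h2 := h none
      rw [sum_none] at h2
      by_cases h3 : none ∈ y <;> by_cases h4 : some e ∈ y <;> simp [h3, h4] at h2 ⊢
    refine ⟨h1, fun t => ?_⟩
    have h2 := h (some t)
    rwa [sum_some hpq t y h1] at h2
  · rintro ⟨h1, h2⟩ w
    rcases w with _ | t
    · rw [sum_none]
      by_cases h3 : none ∈ y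
      · rw [if_pos h3, if_pos (h1.2 h3)]; decide
      · rw [if_neg h3, if_neg fun h => h3 (h1.1 h)]; decide
    · rw [sum_some hpq t y h1]; exact h2 t

/-- the even set of the subdivided graph which corresponds to `y` -/
noncomputable def lft (e : G.E) (y : Finset G.E) : Finset (Option G.E) :=
  if e ∈ y then Finset.insertNone y else y.map Function.Embedding.some

theorem erase_lft (e : G.E) (y : Finset G.E) : Finset.eraseNone (lft e y) = y := by
  unfold lft
  split_ifs
  · simp
  · simp

theorem some_mem_lft (e : G.E) (y : Finset G.E) (x : G.E) : some x ∈ lft e y ↔ x ∈ y := by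
  rw [← Finset.mem_eraseNone, erase_lft]

theorem none_mem_lft (e : G.E) (y : Finset G.E) : none ∈ lft e y ↔ e ∈ y := by
  unfold lft
  split_ifs with h
  · simp [h]
  · simp [h]

include hpq in
theorem ev_lft (y : Finset G.E) : ev (G.subdivide e p q) (lft e y) ↔ ev G y := by
  rw [ev_sub hpq, erase_lft, some_mem_lft, none_mem_lft]
  simp

include hpq in
theorem cnt_sub (F : Finset G.E) :
    cnt (ev (G.subdivide e p q)) (Finset.insertNone F) = cnt (ev G) F := by
  unfold cnt
  refine Finset.card_bij' (fun y _ => Finset.eraseNone y) (fun y _ => lft e y) ?_ ?_ ?_ ?_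
  · intro y hy
    obtain ⟨h1, h2⟩ := mem_evens.1 hy
    refine mem_evens.2 ⟨fun x hx => ?_, ((ev_sub hpq y).1 h2).2⟩
    have := h1 (Finset.mem_eraseNone.1 hx)
    simpa using this
  · intro y hy
    obtain ⟨h1, h2⟩ := mem_evens.1 hy
    refine mem_evens.2 ⟨fun x hx => ?_, (ev_lft hpq y).2 h2⟩
    rcases x with _ | x
    · simp
    · have := h1 ((some_mem_lft e y x).1 hx)
      simpa using this
  · intro y hy
    obtain ⟨h1, h2⟩ := mem_evens.1 hy
    have h3 := ((ev_sub hpq y).1 h2).1
    ext x
    rcases x with _ | x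
    · rw [none_mem_lft, Finset.mem_eraseNone]; exact h3
    · rw [some_mem_lft, Finset.mem_eraseNone]
  · intro y _
    exact erase_lft e y

include hpq in
theorem tail_sub {N : ℕ} {F : Finset G.E} {T : ℕ → Finset G.E} (he : e ∈ F)
    {F' : Finset (Option G.E)} {T' : ℕ → Finset (Option G.E)} (hF : Finset.insertNone F = F')
    (hT : ∀ n, N < n → (T n).map Function.Embedding.some = T' n) :
    Tail (ev G) Set.univ N F T ↔ Tail (ev (G.subdivide e p q)) Set.univ N F' T' := by
  subst hF
  have hdis : ∀ (y : Finset (Option G.E)) (S : Finset G.E),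
      Disjoint y (S.map Function.Embedding.some) ↔ Disjoint (Finset.eraseNone y) S := by
    intro y S
    rw [Finset.disjoint_left, Finset.disjoint_left]
    constructor
    · intro h x hx hS
      exact h (Finset.mem_eraseNone.1 hx) (Finset.mem_map_of_mem _ hS)
    · intro h x hx hS
      obtain ⟨s, hs, rfl⟩ := Finset.mem_map.1 hS
      exact h (Finset.mem_eraseNone.2 hx) hs
  have hsub : ∀ (y : Finset (Option G.E)) (S : Finset G.E),
      S.map Function.Embedding.some ⊆ y ↔ S ⊆ Finset.eraseNone y := by
    intro y S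
    constructor
    · intro h x hx
      exact Finset.mem_eraseNone.2 (h (Finset.mem_map_of_mem _ hx))
    · intro h x hx
      obtain ⟨s, hs, rfl⟩ := Finset.mem_map.1 hx
      exact Finset.mem_eraseNone.1 (h hs)
  have hevT : ∀ S : Finset G.E, e ∉ S →
      (ev (G.subdivide e p q) (S.map Function.Embedding.some) ↔ ev G S) := by
    intro S hS
    have : S.map Function.Embedding.some = lft e S := by unfold lft; rw [if_neg hS]
    rw [this]; exact ev_lft hpq S
  constructor
  · intro t
    have heT : ∀ n, N < n → e ∉ T n := fun n hn h => Finset.disjoint_left.1 (t.dF n hn) he h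
    refine ⟨fun x => ⟨fun _ => ?_, fun _ => Set.mem_univ _⟩, fun n hn => ?_,
      fun n m hn hm hnm => ?_, fun n hn => ?_,
      fun n hn => ?_, fun y hy hC n hn => ?_, fun x hx => ?_, ?_⟩
    · rcases x with _ | x
      · left; simp
      · rcases (t.cover x).1 (Set.mem_univ _) with h1 | ⟨n, hn, h1⟩
        · left; simpa using h1
        · right
          exact ⟨n, hn, by rw [← hT n hn]; exact Finset.mem_map_of_mem _ h1⟩
    · rw [← hT n hn, hdis, Finset.eraseNone_insertNone]; exact t.dF n hn
    · rw [← hT n hn, ← hT m hm, Finset.disjoint_map]; exact t.dT n m hn hm hnm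
    · rw [← hT n hn, Finset.card_map]; exact t.card n hn
    · rw [← hT n hn, hevT _ (heT n hn)]; exact t.even n hn
    · rw [← hT n hn, hdis, hsub]
      exact t.split _ ((ev_sub hpq y).1 hy).2 (fun _ _ => Set.mem_univ _) n hn
    · rcases x with _ | x
      · obtain ⟨y, h1, h2, h3⟩ := t.full e he
        refine ⟨lft e y, fun x hx => ?_, (ev_lft hpq y).2 h2, (none_mem_lft e y).2 h3⟩
        rcases x with _ | x
        · simp
        · have := h1 ((some_mem_lft e y x).1 hx)
          simpa using this
      · have hx' : x ∈ F := by simpa using hx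
        obtain ⟨y, h1, h2, h3⟩ := t.full x hx'
        refine ⟨lft e y, fun x hx => ?_, (ev_lft hpq y).2 h2, (some_mem_lft e y x).2 h3⟩
        rcases x with _ | x
        · simp
        · have := h1 ((some_mem_lft e y x).1 hx)
          simpa using this
    · rw [cnt_sub hpq]; exact t.count
  · intro t
    have heT : ∀ n, N < n → e ∉ T n := fun n hn h => by
      have h1 := t.dF n hn
      rw [← hT n hn, hdis, Finset.eraseNone_insertNone] at h1
      exact Finset.disjoint_left.1 h1 he h
    refine ⟨fun x => ⟨fun _ => ?_, fun _ => Set.mem_univ _⟩, fun n hn => ?_,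
      fun n m hn hm hnm => ?_, fun n hn => ?_,
      fun n hn => ?_, fun y hy hC n hn => ?_, fun x hx => ?_, ?_⟩
    · rcases (t.cover (some x)).1 (Set.mem_univ _) with h1 | ⟨n, hn, h1⟩
      · left; simpa using h1
      · right
        rw [← hT n hn] at h1
        exact ⟨n, hn, by simpa using h1⟩
    · have := t.dF n hn
      rwa [← hT n hn, hdis, Finset.eraseNone_insertNone] at this
    · have := t.dT n m hn hm hnm
      rwa [← hT n hn, ← hT m hm, Finset.disjoint_map] at this
    · have := t.card n hn
      rwa [← hT n hn, Finset.card_map] at this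
    · have := t.even n hn
      rwa [← hT n hn, hevT _ (heT n hn)] at this
    · have := t.split (lft e y) ((ev_lft hpq y).2 hy) (fun _ _ => Set.mem_univ _) n hn
      rwa [← hT n hn, hdis, hsub, erase_lft] at this
    · obtain ⟨y, h1, h2, h3⟩ := t.full (some x) (by simpa using hx)
      refine ⟨Finset.eraseNone y, fun z hz => ?_, ((ev_sub hpq y).1 h2).2,
        Finset.mem_eraseNone.2 h3⟩
      have := h1 (Finset.mem_eraseNone.1 hz)
      simpa using this
    · rw [← cnt_sub hpq]; exact t.count

include hpq in
theorem good_sub : Good (ev G) Set.univ ↔ Good (ev (G.subdivide e p q)) Set.univ := by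
  constructor
  · rintro ⟨N, F, T, t⟩
    obtain ⟨M, F', -, -, s, h1, -⟩ := t.absorb (ev_bin G) {e} 0
    have he : e ∈ F' := h1 e (Finset.mem_singleton_self _) (Set.mem_univ _)
    exact ⟨M, _, _, (tail_sub hpq he rfl fun _ _ => rfl).1 s⟩
  · rintro ⟨N, F, T, t⟩
    obtain ⟨M, F', -, -, s, h1, h2⟩ := t.absorb (ev_bin (G.subdivide e p q))
      ({none, some e} : Finset (Option G.E)) 0
    have hn : (none : Option G.E) ∈ F' := h1 none (by simp) (Set.mem_univ _)
    have he : (some e : Option G.E) ∈ F' := h1 (some e) (by simp) (Set.mem_univ _)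
    have he' : e ∈ Finset.eraseNone F' := Finset.mem_eraseNone.2 he
    refine ⟨M, Finset.eraseNone F', fun n => Finset.eraseNone (T n),
      (tail_sub hpq he' (F' := F') (T' := T) ?_ fun n hn' => ?_).2 s⟩
    · ext x
      rcases x with _ | x
      · simp [hn]
      · simp
    · have h3 : (none : Option G.E) ∉ T n := fun h4 =>
        Finset.disjoint_left.1 (h2 n hn') (by simp) h4
      rw [Finset.map_some_eraseNone, Finset.erase_eq_of_notMem h3]

include hpq in
theorem fam_sub : G ∈ fam ↔ G.subdivide e p q ∈ fam := by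
  unfold fam
  refine and_congr ⟨fun h3 v => ?_, fun h3 v => ?_⟩ (good_sub hpq)
  · rcases v with _ | v
    · exact ⟨none, Sym2.mem_mk_left _ _⟩
    · obtain ⟨x, hx⟩ := h3 v
      by_cases hxe : x = e
      · subst hxe
        rw [hpq, Sym2.mem_iff] at hx
        rcases hx with rfl | rfl
        · refine ⟨some x, ?_⟩
          have : (G.subdivide x v q).ends (some x) = s(some v, none) := by simp [MG.subdivide]
          rw [this]; exact Sym2.mem_mk_left _ _
        · exact ⟨none, Sym2.mem_mk_right _ _⟩
      · refine ⟨some x, ?_⟩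
        have : (G.subdivide e p q).ends (some x) = (G.ends x).map some := by
          simp [MG.subdivide, hxe]
        rw [this, Sym2.mem_map]
        exact ⟨v, hx, rfl⟩
  · obtain ⟨x, hx⟩ := h3 (some v)
    rcases x with _ | x
    · refine ⟨e, ?_⟩
      have h4 : (G.subdivide e p q).ends none = s(none, some q) := rfl
      rw [h4] at hx
      rw [hpq, Sym2.mem_iff]
      right
      rcases Sym2.mem_iff.1 hx with h5 | h5
      · exact absurd h5 (by simp)
      · exact Option.some_injective _ h5
    · by_cases hxe : x = e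
      · subst hxe
        refine ⟨x, ?_⟩
        have h4 : (G.subdivide x p q).ends (some x) = s(some p, none) := by simp [MG.subdivide]
        rw [h4] at hx
        rw [hpq, Sym2.mem_iff]
        left
        rcases Sym2.mem_iff.1 hx with h5 | h5
        · exact Option.some_injective _ h5
        · exact absurd h5 (by simp)
      · refine ⟨x, ?_⟩
        have h4 : (G.subdivide e p q).ends (some x) = (G.ends x).map some := by
          simp [MG.subdivide, hxe]
        rw [h4, Sym2.mem_map] at hx
        obtain ⟨w, hw, hwv⟩ := hx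
        rwa [← Option.some_injective _ hwv]

end sub

theorem fam_step {A B : MG.{u}} (h : A.Iso B ∨ A.Subdivision B) : A ∈ fam ↔ B ∈ fam := by
  rcases h with h | ⟨e, p, q, hpq, h⟩
  · exact fam_iso h
  · exact (fam_sub hpq).trans (fam_iso h)

theorem fam_arises {A B : MG.{u}} (h : A.Arises B) : A ∈ fam ↔ B ∈ fam := by
  induction h with
  | refl => exact Iff.rfl
  | tail _ h2 ih => exact ih.trans (fam_step h2)

theorem fam_closed : HomeoClosed (fam : Set MG.{u}) := by
  rintro G hG H ⟨Z, h1, h2⟩
  exact (fam_arises h2).1 ((fam_arises h1).2 hG)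

end Pool.Agent.Run7.h637.MF
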